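import Pool.Agent.KS6_30.VF.ManU

/-!
# All quintic del Pezzo threefolds over `ℚ`, for all adelic anticanonical heights

`A` is a triple of alternating 5 × 5 matrices over `ℚ`, and `X_A` is the variety of the planes in the
5-dimensional space on which the three alternating forms of `A` vanish: a linear section of codimension 3
of the Grassmannian `Gr(2, 5)` in its Pluecker embedding. If `X_A` is smooth of dimension 3, it is a Fano
threefold of Picard number 1, index 2 and degree 5 (a quintic del Pezzo threefold, a form over `ℚ` of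
`V_5`), and its anticanonical class is `O(2)`. (Every such threefold over `ℚ` is an `X_A`; this is not used.)

* `wedge x y`: the Pluecker coordinates `x a * y b - x b * y a` of the plane spanned by `x` and `y`.
* `Isotropic A x y`: the three alternating forms vanish at `(x, y)`.
* `IsSmooth A`: the Jacobian criterion over the algebraic closure: for linearly independent `x`, `y` with
  `Isotropic A x y` the derivative at `(x, y)` of the map from the pairs `(x, y)` to the three values of the
  forms is onto. That is, `X_A` is smooth of dimension 3 (the pairs of linearly independent isotropic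
  vectors are a `GL_2`-torsor over `X_A`).
* `IsPoint A p`: the point `p` of the projective space of the Pluecker coordinates is in `X_A(ℚ)`: `p` is
  the class of `wedge x y`, where `x`, `y` are isotropic.
* `Cone A L`: the nonzero vectors `wedge x y` over the field `L` with `x`, `y` isotropic.
* `IsFactor A L ψ`: `ψ` is a positive continuous function on `X_A(L)`, that is, a continuous function on
  `Cone A L` with positive values which does not change if the vector is multiplied by a nonzero element
  of `L`.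
* `height S ψ φ p`: the product of the standard anticanonical height `H(p) ^ 2` (`H` is the
  multiplicative height of Mathlib) with the values at `p` of the function `ψ` on `X_A(ℝ)` and of the
  functions `φ l` on `X_A(ℚ_l)` for all primes `l` in the finite set `S`. The adelic metrics on the
  anticanonical bundle differ by such functions; so these are all relative adelic heights for the
  anticanonical bundle.
* `bounded A S ψ φ B`: the points of `X_A(ℚ)` of height at most `B`.
* `OnLine A p`: the point `p` is on a line of `X_A` which is defined over `ℚ`: `p` is the class of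
  `wedge a b`, where `a`, `b`, `c` are linearly independent vectors over `ℚ` and `(a, b)` and `(a, c)` are
  isotropic; so `p` is on the line of the planes spanned by `a` and a combination of `b` and `c`.

Theorem: for every smooth `X_A` and every relative adelic height for the anticanonical bundle the number of
all points of `X_A(ℚ)` of height at most `B` is asymptotically equal to `c B`, with `c > 0`, and the number
of those which are on no line of `X_A` defined over `ℚ` is asymptotically equal to `c' B`, with `c' > 0`.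
(The set of all points and the set of the points on no rational line are cothin; so these are asymptotic
formulas of the problem for `X_A`, where the Picard number is 1.)
-/

set_option autoImplicit false

namespace Pool.Agent.Results.MP_1acd66_nt.QuinticThreefoldForms

/-- The Pluecker coordinates of the plane spanned by `x` and `y`. -/
def wedge {L : Type} [CommRing L] (x y : Fin 5 → L) : Fin 5 × Fin 5 → L :=
  fun p => x p.1 * y p.2 - x p.2 * y p.1

/-- The three alternating forms vanish at `(x, y)`. -/
def Isotropic (A : Fin 3 → Matrix (Fin 5) (Fin 5) ℚ) {L : Type} [Field L] (x y : Fin 5 → L) : Prop :=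
  ∀ i, ∑ j, ∑ k, (A i j k : L) * x j * y k = 0

/-- `X_A` is smooth of dimension 3 (Jacobian criterion). -/
def IsSmooth (A : Fin 3 → Matrix (Fin 5) (Fin 5) ℚ) : Prop :=
  ∀ x y : Fin 5 → AlgebraicClosure ℚ, LinearIndependent (AlgebraicClosure ℚ) ![x, y] →
    Isotropic A x y → ∀ t : Fin 3 → AlgebraicClosure ℚ, ∃ u v : Fin 5 → AlgebraicClosure ℚ,
      ∀ i, ∑ j, ∑ k, (A i j k : AlgebraicClosure ℚ) * (u j * y k + x j * v k) = t i

/-- `p` is a rational point of `X_A`. -/
def IsPoint (A : Fin 3 → Matrix (Fin 5) (Fin 5) ℚ)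
    (p : Projectivization ℚ (Fin 5 × Fin 5 → ℚ)) : Prop :=
  ∃ x y : Fin 5 → ℚ, Isotropic A x y ∧ p.rep = wedge x y

/-- The cone over `X_A(L)`. -/
def Cone (A : Fin 3 → Matrix (Fin 5) (Fin 5) ℚ) (L : Type) [NormedField L] :
    Set (Fin 5 × Fin 5 → L) :=
  {q | q ≠ 0 ∧ ∃ x y : Fin 5 → L, Isotropic A x y ∧ q = wedge x y}

/-- A positive continuous function on `X_A(L)`. -/
structure IsFactor (A : Fin 3 → Matrix (Fin 5) (Fin 5) ℚ) (L : Type) [NormedField L]
    (ψ : (Fin 5 × Fin 5 → L) → ℝ) : Prop where
  positive : ∀ q ∈ Cone A L, 0 < ψ q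
  continuous : ContinuousOn ψ (Cone A L)
  invariant : ∀ a : L, a ≠ 0 → ∀ q ∈ Cone A L, ψ (a • q) = ψ q

/-- The elements of `Nat.Primes` are prime numbers. -/
local instance factPrime (l : Nat.Primes) : Fact (l : ℕ).Prime := ⟨l.2⟩

/-- The height of a point, for the local factors `ψ` (real) and `φ l` (`l` in `S`). -/
noncomputable def height (S : Finset Nat.Primes) (ψ : (Fin 5 × Fin 5 → ℝ) → ℝ)
    (φ : ∀ l : Nat.Primes, (Fin 5 × Fin 5 → ℚ_[l]) → ℝ)
    (p : Projectivization ℚ (Fin 5 × Fin 5 → ℚ)) : ℝ :=
  p.mulHeight ^ 2 * (ψ (fun q => (p.rep q : ℝ)) * ∏ l ∈ S, φ l (fun q => (p.rep q : ℚ_[l])))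

/-- The rational points of `X_A` of height at most `B`. -/
def bounded (A : Fin 3 → Matrix (Fin 5) (Fin 5) ℚ) (S : Finset Nat.Primes)
    (ψ : (Fin 5 × Fin 5 → ℝ) → ℝ) (φ : ∀ l : Nat.Primes, (Fin 5 × Fin 5 → ℚ_[l]) → ℝ) (B : ℝ) :
    Set (Projectivization ℚ (Fin 5 × Fin 5 → ℚ)) :=
  {p | IsPoint A p ∧ height S ψ φ p ≤ B}

/-- `p` is on a line of `X_A` defined over `ℚ`. -/
def OnLine (A : Fin 3 → Matrix (Fin 5) (Fin 5) ℚ)
    (p : Projectivization ℚ (Fin 5 × Fin 5 → ℚ)) : Prop :=
  ∃ a b c : Fin 5 → ℚ, LinearIndependent ℚ ![a, b, c] ∧ Isotropic A a b ∧ Isotropic A a c ∧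
    p.rep = wedge a b

open Matrix in
theorem result (A : Fin 3 → Matrix (Fin 5) (Fin 5) ℚ) (hA : ∀ i, (A i)ᵀ = -(A i))
    (hs : IsSmooth A) (S : Finset Nat.Primes) (ψ : (Fin 5 × Fin 5 → ℝ) → ℝ)
    (φ : ∀ l : Nat.Primes, (Fin 5 × Fin 5 → ℚ_[l]) → ℝ) (hψ : IsFactor A ℝ ψ)
    (hφ : ∀ l ∈ S, IsFactor A ℚ_[l] (φ l)) :
    (∃ c : ℝ, 0 < c ∧ Filter.Tendsto (fun B : ℝ => ((bounded A S ψ φ B).ncard : ℝ) / B)
      Filter.atTop (nhds c)) ∧
    ∃ c : ℝ, 0 < c ∧ Filter.Tendsto
      (fun B : ℝ => (({p | p ∈ bounded A S ψ φ B ∧ ¬ OnLine A p}).ncard : ℝ) / B)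
      Filter.atTop (nhds c) := by
  have h1 : Pool.Agent.KS6_98.V5F.IsFactor A ℝ ψ := ⟨hψ.positive, hψ.continuous, hψ.invariant⟩
  have h2 : ∀ l ∈ S, Pool.Agent.KS6_98.V5F.IsFactor A ℚ_[l] (φ l) := fun l hl =>
    ⟨(hφ l hl).positive, (hφ l hl).continuous, (hφ l hl).invariant⟩
  refine ⟨Pool.Agent.KS6_30.VF.man_all hA hs S ψ φ h1 h2, ?_⟩
  obtain ⟨c, hc, h⟩ := Pool.Agent.KS6_30.VF.manU_all hA hs S ψ φ h1 h2
  refine ⟨c, hc, h.congr fun B => ?_⟩
  congr 3
  ext p
  exact ⟨fun h => ⟨⟨h.1.1, h.2⟩, h.1.2⟩, fun h => ⟨⟨h.1.1, h.2⟩, h.1.2⟩⟩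

end Pool.Agent.Results.MP_1acd66_nt.QuinticThreefoldForms
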