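import Pool.Agent.KS6_53.Y4.G3

/-!
# Manin's conjecture for the blow-up of the projective 4-space in a projected Veronese surface, over the
rational numbers, for all adelic anticanonical heights

`X` is the variety of the planes `w` in the 5-dimensional space on which the three alternating forms
`p03 + p12`, `p04 + p13`, `p14 + p23` vanish (`p_ij = x_i y_j - x_j y_i`): the split quintic del Pezzo
threefold `V_5`. `Y` is the variety of the pairs `(x, w)` of a point `x` of the projective 4-space and of
a plane `w` of `X` through `x`: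

* over `X` it is the projectivization of the universal subbundle of rank 2, a bundle of projective lines;
* over the projective 4-space it is the blow-up in the smooth surface of the points on more than one
  plane of `X`, the Veronese surface projected to the 4-space: the other points `x` are on exactly one
  plane of `X`.

`Y` is a smooth Fano fourfold of Picard number 2; its anticanonical class is `O(2, 1)` (twice the
hyperplane class of the 4-space plus the hyperplane class of `X` in the Pluecker embedding).

* `wedge x y`: the Pluecker coordinates `x a * y b - x b * y a` of the plane spanned by `x` and `y`.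
* `Isotropic x y`: the three alternating forms vanish at `(x, y)`.
* `IsPoint z`: `z = (x, w)` is in `Y(ℚ)`: `w` is the class of `wedge x y`, where `x`, `y` are isotropic
  and `x` is a vector of the first point.
* `OnLine w`: the point `w` of `X` is on a line which is contained in `X` and defined over `ℚ`. The lines
  of the Grassmannian are the pencils of the planes of `a` and `s b + t c` (`a`, `b`, `c` linearly
  independent); the pencil is in `X` if `a` and `b` are isotropic and `a` and `c` are isotropic.
* `Cone L`: the pairs `(x, wedge x y)` over the field `L` with `x`, `y` isotropic and `wedge x y ≠ 0`.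
* `IsFactor L ψ`: `ψ` is a positive continuous function on `Y(L)`, that is, a continuous function on
  `Cone L` with positive values which does not change if the two vectors of the pair are multiplied by
  nonzero elements of `L`.
* `height S ψ φ z`: the product of the standard anticanonical height `H(x) ^ 2 * H(w)` (`H` is the
  multiplicative height of Mathlib) with the values at `z = (x, w)` of the function `ψ` on `Y(ℝ)` and of
  the functions `φ l` on `Y(ℚ_l)` for all primes `l` in the finite set `S`. The adelic metrics on the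
  anticanonical bundle differ by such functions; so these are all relative adelic heights for the
  anticanonical bundle.
* `bounded S ψ φ B`: the points `(x, w)` of `Y(ℚ)` of height at most `B` such that `w` is on no line of
  `X` defined over `ℚ`.

The set `U` of the points `(x, w)` such that `w` is on no line of `X` defined over `ℚ` is cothin: the
lines of `X` are parametrized by a projective plane, three of them go through a general point of `X`, and
the complement of `U` is the image of the rational points of the fibre product over `X` of `Y` and of the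
universal line, an irreducible fourfold which is generically finite of degree 3 over `Y`.

Theorem: for every relative adelic height for the anticanonical bundle the number of the points of `U` of
height at most `B` is asymptotically equal to `c B log B`, with `c > 0`.
-/

set_option autoImplicit false

namespace Pool.Agent.Results.MP_1acd66_nt.VeroneseBlowupFourfold

/-- The Pluecker coordinates of the plane spanned by `x` and `y`. -/
def wedge {L : Type} [CommRing L] (x y : Fin 5 → L) : Fin 5 × Fin 5 → L :=
  fun p => x p.1 * y p.2 - x p.2 * y p.1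

/-- The three alternating forms vanish at `(x, y)`. -/
def Isotropic {L : Type} [CommRing L] (x y : Fin 5 → L) : Prop :=
  x 0 * y 3 - x 3 * y 0 + (x 1 * y 2 - x 2 * y 1) = 0 ∧
  x 0 * y 4 - x 4 * y 0 + (x 1 * y 3 - x 3 * y 1) = 0 ∧
  x 1 * y 4 - x 4 * y 1 + (x 2 * y 3 - x 3 * y 2) = 0

/-- The pairs of a rational point of the projective 4-space and of a rational point of the projective
space of the Pluecker coordinates. -/
abbrev Pairs : Type := Projectivization ℚ (Fin 5 → ℚ) × Projectivization ℚ (Fin 5 × Fin 5 → ℚ)

/-- `z` is a rational point of `Y`. -/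
def IsPoint (z : Pairs) : Prop :=
  ∃ y : Fin 5 → ℚ, Isotropic z.1.rep y ∧ z.2.rep = wedge z.1.rep y

/-- `w` is on a line of `X` defined over `ℚ`. -/
def OnLine (w : Projectivization ℚ (Fin 5 × Fin 5 → ℚ)) : Prop :=
  ∃ a b c : Fin 5 → ℚ, LinearIndependent ℚ ![a, b, c] ∧ Isotropic a b ∧ Isotropic a c ∧
    w.rep = wedge a b

/-- The pairs of vectors over `Y(L)`. -/
def Cone (L : Type) [NormedField L] : Set ((Fin 5 → L) × (Fin 5 × Fin 5 → L)) :=
  {z | z.2 ≠ 0 ∧ ∃ y : Fin 5 → L, Isotropic z.1 y ∧ z.2 = wedge z.1 y}

/-- A positive continuous function on `Y(L)`. -/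
structure IsFactor (L : Type) [NormedField L] (ψ : (Fin 5 → L) × (Fin 5 × Fin 5 → L) → ℝ) :
    Prop where
  positive : ∀ z ∈ Cone L, 0 < ψ z
  continuous : ContinuousOn ψ (Cone L)
  invariant : ∀ a b : L, a ≠ 0 → b ≠ 0 → ∀ z ∈ Cone L, ψ (a • z.1, b • z.2) = ψ z

/-- The elements of `Nat.Primes` are prime numbers. -/
local instance factPrime (l : Nat.Primes) : Fact (l : ℕ).Prime := ⟨l.2⟩

/-- The height of a point, for the local factors `ψ` (real) and `φ l` (`l` in `S`). -/
noncomputable def height (S : Finset Nat.Primes) (ψ : (Fin 5 → ℝ) × (Fin 5 × Fin 5 → ℝ) → ℝ)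
    (φ : ∀ l : Nat.Primes, (Fin 5 → ℚ_[l]) × (Fin 5 × Fin 5 → ℚ_[l]) → ℝ) (z : Pairs) : ℝ :=
  z.1.mulHeight ^ 2 * z.2.mulHeight * (ψ (fun i => (z.1.rep i : ℝ), fun q => (z.2.rep q : ℝ)) *
    ∏ l ∈ S, φ l (fun i => (z.1.rep i : ℚ_[l]), fun q => (z.2.rep q : ℚ_[l])))

/-- The points of `U` of height at most `B`. -/
def bounded (S : Finset Nat.Primes) (ψ : (Fin 5 → ℝ) × (Fin 5 × Fin 5 → ℝ) → ℝ)
    (φ : ∀ l : Nat.Primes, (Fin 5 → ℚ_[l]) × (Fin 5 × Fin 5 → ℚ_[l]) → ℝ) (B : ℝ) : Set Pairs :=
  {z | (IsPoint z ∧ ¬ OnLine z.2) ∧ height S ψ φ z ≤ B}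

theorem cone_eq (L : Type) [NormedField L] : Cone L = Pool.Agent.KS6_53.Y4.Cone2 L := by
  ext z
  constructor
  · rintro ⟨h0, y, hi, he⟩
    refine ⟨?_, ⟨h0, z.1, y, hi, he⟩, ?_⟩
    · intro h1
      apply h0
      rw [he, h1]
      funext p
      simp [wedge]
    · rw [he]
      exact Pool.Agent.KS6_53.V5.wedge_in_left _ _
  · rintro ⟨h1, ⟨h0, x, y, hi, he⟩, hin⟩
    refine ⟨h0, ?_⟩
    rw [he] at hin h0
    obtain ⟨a, b, hab⟩ := (Pool.Agent.KS6_53.V5.in_wedge_iff
      (Pool.Agent.KS6_53.V5.unimod_of_ne h0)).1 hin
    by_cases ha : a = 0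
    · have hb : b ≠ 0 := by
        rintro rfl
        apply h1
        rw [hab, ha, zero_smul, zero_smul, add_zero]
      refine ⟨(-b⁻¹) • x, ?_, ?_⟩
      · rw [hab, ha, zero_smul, zero_add]
        exact Pool.Agent.KS6_53.V5.iso_smul_left _ (Pool.Agent.KS6_53.V5.iso_comm
          (Pool.Agent.KS6_53.V5.iso_smul_left _ hi))
      · rw [hab, ha, he]
        funext p
        simp only [wedge, Pool.Agent.KS6_53.V5.wedge, Pi.add_apply, Pi.smul_apply, smul_eq_mul]
        field_simp
        ring
    · refine ⟨a⁻¹ • y, ?_, ?_⟩
      · rw [hab]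
        have h2 := Pool.Agent.KS6_53.V5.iso_comb a b 0 a⁻¹ hi
        rw [zero_smul, zero_add] at h2
        exact h2
      · rw [hab, he]
        funext p
        simp only [wedge, Pool.Agent.KS6_53.V5.wedge, Pi.add_apply, Pi.smul_apply, smul_eq_mul]
        field_simp
        ring

theorem result (S : Finset Nat.Primes) (ψ : (Fin 5 → ℝ) × (Fin 5 × Fin 5 → ℝ) → ℝ)
    (φ : ∀ l : Nat.Primes, (Fin 5 → ℚ_[l]) × (Fin 5 × Fin 5 → ℚ_[l]) → ℝ) (hψ : IsFactor ℝ ψ)
    (hφ : ∀ l ∈ S, IsFactor ℚ_[l] (φ l)) :
    ∃ c : ℝ, 0 < c ∧ Filter.Tendsto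
      (fun B : ℝ => ((bounded S ψ φ B).ncard : ℝ) / (B * Real.log B)) Filter.atTop (nhds c) :=
  Pool.Agent.KS6_53.Y4.main S ψ φ
    ⟨cone_eq ℝ ▸ hψ.positive, cone_eq ℝ ▸ hψ.continuous, cone_eq ℝ ▸ hψ.invariant⟩
    (fun l hl => ⟨cone_eq ℚ_[l] ▸ (hφ l hl).positive, cone_eq ℚ_[l] ▸ (hφ l hl).continuous,
      cone_eq ℚ_[l] ▸ (hφ l hl).invariant⟩)

end Pool.Agent.Results.MP_1acd66_nt.VeroneseBlowupFourfold
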